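import Pool.Agent.Lib.MP_07117b_nt_h64.Defs

/-!
Row E1: the prime 1249.
-/

namespace Pool.Agent.Arb

open Cst

namespace Ell

lemma cast_zero : (1249 : ZMod 1249) = 0 := by
  have := ZMod.natCast_self 1249
  exact_mod_cast this

lemma dec (A W : ZMod 1249) (h : (A = 523 ∨ A = 726) ∧ (W = 93 ∨ W = 1155)) :
    (2 * W + 1 - A ≠ 0 ∧ (2 * W + 1 - A) ^ 96 ≠ 1) ∧
    ((2 * W + 1 - A) ^ 2 - (2 * W + 1 - A) + 1 ≠ 0 ∧
      ((2 * W + 1 - A) ^ 2 - (2 * W + 1 - A) + 1) ^ 624 ≠ 1) ∧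
    ((W * (2 * W + 1 - A)) ^ 2 - W * (2 * W + 1 - A) + 1 ≠ 0 ∧
      ((W * (2 * W + 1 - A)) ^ 2 - W * (2 * W + 1 - A) + 1) ^ 624 ≠ 1) := by
  obtain ⟨rfl | rfl, rfl | rfl⟩ := h
  all_goals decide +kernel

variable [Fact (Nat.Prime 1249)]

lemma roots (A W : ZMod 1249) (hA : A ^ 2 = -2) (hW : W ^ 2 + W + 1 = 0) :
    (A = 523 ∨ A = 726) ∧ (W = 93 ∨ W = 1155) := by
  have h0 := cast_zero
  have h1 : (A - 523) * (A - 726) = 0 := by linear_combination hA + (304 - A) * h0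
  have h2 : (W - 93) * (W - 1155) = 0 := by linear_combination hW + (86 - W) * h0
  rw [mul_eq_zero, sub_eq_zero, sub_eq_zero] at h1 h2
  exact ⟨h1, h2⟩

lemma no_pow (n k : ℕ) (hk : n * k = 1248) (m : ZMod 1249) (h0 : m ≠ 0) (h1 : m ^ k ≠ 1)
    (y : ZMod 1249) : y ^ n ≠ m := by
  intro h
  apply h1
  rw [← h, ← pow_mul, hk]
  apply ZMod.pow_card_sub_one_eq_one
  rintro rfl
  apply h0
  rw [← h]
  apply zero_pow
  rintro rfl
  omega

lemma key (A W : ZMod 1249) (hA : A ^ 2 = -2) (hW : W ^ 2 + W + 1 = 0) :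
    (∀ y : ZMod 1249, y ^ 13 ≠ 2 * W + 1 - A) ∧
    (∀ y : ZMod 1249, y ^ 2 ≠ (2 * W + 1 - A) ^ 2 - (2 * W + 1 - A) + 1) ∧
    (∀ y : ZMod 1249, y ^ 2 ≠ (W * (2 * W + 1 - A)) ^ 2 - W * (2 * W + 1 - A) + 1) := by
  obtain ⟨⟨a1, a2⟩, ⟨b1, b2⟩, c1, c2⟩ := dec A W (roots A W hA hW)
  exact ⟨no_pow 13 96 rfl _ a1 a2, no_pow 2 624 rfl _ b1 b2, no_pow 2 624 rfl _ c1 c2⟩

lemma mem_unit (y : ℚ_[1249]) (n : ℕ) (hn : n ≠ 0) (h : ‖y ^ n‖ ≤ 1) : ‖y‖ ≤ 1 := by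
  rw [norm_pow] at h
  exact (pow_le_one_iff_of_nonneg (norm_nonneg _) hn).mp h

end Ell

open Ell in
/-- row E1: with a homomorphism to `ℚ_1249` (check the four pairs `(a, ω)` modulo `1249`). -/
theorem ell1249 [Fact (Nat.Prime 1249)] {K : Type*} [Field K] (c0 : Cst K) (φ : K →+* ℚ_[1249]) :
    (∀ y : K, y ^ 13 ≠ c0.m) ∧ (∀ y : K, y ^ 2 ≠ D c0.m) ∧
      (∀ y : K, y ^ 2 ≠ D (c0.ω * c0.m)) := by
  have hA2 : (φ c0.a) ^ 2 = -2 := by rw [← map_pow, c0.ha, map_neg, map_ofNat]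
  have hW2 : (φ c0.ω) ^ 2 + φ c0.ω + 1 = 0 := by
    rw [← map_pow, ← map_add, ← map_one φ, ← map_add, c0.hω, map_zero]
  have hAn : ‖φ c0.a‖ ≤ 1 := by
    apply mem_unit _ 2 (by norm_num)
    rw [hA2]
    have h := PadicInt.norm_le_one (-2 : ℤ_[1249])
    rw [← PadicInt.padic_norm_e_of_padicInt] at h
    push_cast at h
    exact h
  have hWn : ‖φ c0.ω‖ ≤ 1 := by
    apply mem_unit _ 3 (by norm_num)
    have h3 : (φ c0.ω) ^ 3 = 1 := by linear_combination (φ c0.ω - 1) * hW2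
    rw [h3, norm_one]
  obtain ⟨A, hA⟩ : ∃ A : ℤ_[1249], (A : ℚ_[1249]) = φ c0.a := ⟨⟨_, hAn⟩, rfl⟩
  obtain ⟨W, hW⟩ : ∃ W : ℤ_[1249], (W : ℚ_[1249]) = φ c0.ω := ⟨⟨_, hWn⟩, rfl⟩
  have h2c : ((2 : ℤ_[1249]) : ℚ_[1249]) = 2 := rfl
  have hA' : A ^ 2 = -2 := by
    apply PadicInt.ext
    push_cast
    rw [hA, hA2, h2c]
  have hW' : W ^ 2 + W + 1 = 0 := by
    apply PadicInt.ext
    push_cast
    rw [hW, hW2]
  obtain ⟨k1, k2, k3⟩ := key (PadicInt.toZMod A) (PadicInt.toZMod W)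
    (by rw [← map_pow, hA', map_neg, map_ofNat])
    (by rw [← map_pow, ← map_add, ← map_one PadicInt.toZMod, ← map_add, hW', map_zero])
  have red : ∀ (n : ℕ) (hn : n ≠ 0) (y : ℚ_[1249]) (r : ℤ_[1249]), y ^ n = r →
      ∃ z : ZMod 1249, z ^ n = PadicInt.toZMod r := by
    intro n hn y r h
    have hy : ‖y‖ ≤ 1 := by
      apply mem_unit _ n hn
      rw [h, PadicInt.padic_norm_e_of_padicInt]
      exact PadicInt.norm_le_one r
    refine ⟨PadicInt.toZMod ⟨y, hy⟩, ?_⟩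
    rw [← map_pow]
    congr 1
    apply PadicInt.ext
    push_cast
    exact h
  refine ⟨fun y hy => ?_, fun y hy => ?_, fun y hy => ?_⟩
  · obtain ⟨z, hz⟩ := red 13 (by norm_num) (φ y) (2 * W + 1 - A) (by
      rw [← map_pow, hy, Cst.m]
      push_cast
      rw [hA, hW, h2c]
      simp only [map_sub, map_add, map_mul, map_ofNat, map_one])
    apply k1 z
    rw [hz]
    simp only [map_sub, map_add, map_mul, map_ofNat, map_one]
  · obtain ⟨z, hz⟩ := red 2 (by norm_num) (φ y)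
      ((2 * W + 1 - A) ^ 2 - (2 * W + 1 - A) + 1) (by
      rw [← map_pow, hy, D, Cst.m]
      push_cast
      rw [hA, hW, h2c]
      simp only [map_sub, map_add, map_mul, map_ofNat, map_one, map_pow])
    apply k2 z
    rw [hz]
    simp only [map_sub, map_add, map_mul, map_ofNat, map_one, map_pow]
  · obtain ⟨z, hz⟩ := red 2 (by norm_num) (φ y)
      ((W * (2 * W + 1 - A)) ^ 2 - W * (2 * W + 1 - A) + 1) (by
      rw [← map_pow, hy, D, Cst.m]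
      push_cast
      rw [hA, hW, h2c]
      simp only [map_sub, map_add, map_mul, map_ofNat, map_one, map_pow])
    apply k3 z
    rw [hz]
    simp only [map_sub, map_add, map_mul, map_ofNat, map_one, map_pow]

end Pool.Agent.Arb
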