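import Pool.Agent.Lib.MP_07117b_nt_h64.LocDefs

/-!
Row E2: the number field `K = ℚ(a, ω, ζ)` and a homomorphism to `ℚ_1249`.
-/

namespace Pool.Agent.Arb

open Polynomial

namespace ExK

section hensel
variable {p : ℕ} [Fact p.Prime]

lemma norm_lt_one_iff (z : ℤ_[p]) : ‖z‖ < 1 ↔ PadicInt.toZMod z = 0 := by
  rw [← PadicInt.mem_nonunits, ← IsLocalRing.mem_maximalIdeal, ← PadicInt.ker_toZMod,
    RingHom.mem_ker]

lemma exists_root_pow (n : ℕ) (hn : (n : ZMod p) ≠ 0) (r : ℤ_[p]) (x : ZMod p) (hx0 : x ≠ 0)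
    (hx : x ^ n = PadicInt.toZMod r) : ∃ α : ℤ_[p], α ^ n = r ∧ PadicInt.toZMod α = x := by
  have ha : PadicInt.toZMod ((x.val : ℕ) : ℤ_[p]) = x := by
    rw [map_natCast, ZMod.natCast_zmod_val]
  set a : ℤ_[p] := ((x.val : ℕ) : ℤ_[p]) with hadef
  have h1 : ‖(X ^ n - C r : ℤ_[p][X]).aeval a‖ < 1 := by
    rw [norm_lt_one_iff]
    simp only [map_sub, map_pow, aeval_X, aeval_C, Algebra.algebraMap_self, RingHom.id_apply]
    rw [ha, hx, sub_self]
  have h2 : ‖(X ^ n - C r : ℤ_[p][X]).derivative.aeval a‖ = 1 := by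
    have h3 : ¬ ‖(X ^ n - C r : ℤ_[p][X]).derivative.aeval a‖ < 1 := by
      rw [norm_lt_one_iff]
      simp only [derivative_sub, derivative_X_pow, derivative_C, sub_zero, map_mul, map_pow,
        aeval_X, aeval_C, Algebra.algebraMap_self, RingHom.id_apply, map_natCast]
      rw [ha]
      exact mul_ne_zero hn (pow_ne_zero _ hx0)
    exact le_antisymm (PadicInt.norm_le_one _) (not_lt.mp h3)
  obtain ⟨z, hz1, hz2, -, -⟩ := hensels_lemma (F := (X ^ n - C r : ℤ_[p][X])) (a := a)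
    (by rw [h2, one_pow]; exact h1)
  refine ⟨z, ?_, ?_⟩
  · simp only [map_sub, map_pow, aeval_X, aeval_C, Algebra.algebraMap_self,
      RingHom.id_apply] at hz1
    exact sub_eq_zero.mp hz1
  · rw [h2, norm_lt_one_iff, map_sub, sub_eq_zero] at hz2
    rw [hz2, ha]

lemma exists_prim {q : ℕ} [Fact q.Prime] (hq : (q : ZMod p) ≠ 0) (x : ZMod p) (hx : x ^ q = 1)
    (hx1 : x ≠ 1) : ∃ z : ℚ_[p], IsPrimitiveRoot z q := by
  have hx0 : x ≠ 0 := by
    rintro rfl
    rw [zero_pow (Fact.out : q.Prime).ne_zero] at hx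
    exact zero_ne_one hx
  obtain ⟨α, h1, h2⟩ := exists_root_pow q hq 1 x hx0 (by rw [hx, map_one])
  refine ⟨α, ?_⟩
  have h3 : (α : ℚ_[p]) ^ q = 1 := by
    rw [← PadicInt.coe_pow, h1, PadicInt.coe_one]
  have h4 : (α : ℚ_[p]) ≠ 1 := by
    intro h
    have h5 : α = 1 := PadicInt.ext (by rw [h, PadicInt.coe_one])
    rw [h5, map_one] at h2
    exact hx1 h2.symm
  have h6 := IsPrimitiveRoot.orderOf (α : ℚ_[p])
  rwa [orderOf_eq_prime h3 h4] at h6

end hensel

lemma dec1 : (93 : ZMod 1249) ^ 3 = 1 ∧ (93 : ZMod 1249) ≠ 1 ∧ (146 : ZMod 1249) ^ 13 = 1 ∧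
    (146 : ZMod 1249) ≠ 1 ∧ (523 : ZMod 1249) ^ 2 = -2 ∧ (523 : ZMod 1249) ≠ 0 ∧
    ((2 : ℕ) : ZMod 1249) ≠ 0 ∧ ((3 : ℕ) : ZMod 1249) ≠ 0 ∧ ((13 : ℕ) : ZMod 1249) ≠ 0 := by
  decide +kernel

lemma good {E L : Type*} [Field E] [Algebra ℚ E] [Field L] [Algebra ℚ L] {s : E} {n : ℕ}
    (hn : 0 < n) {r : ℚ} (hs : s ^ n = algebraMap ℚ E r) {z α : L} (hz : IsPrimitiveRoot z n)
    (hα : α ^ n = algebraMap ℚ L r) :
    IsIntegral ℚ s ∧ ((minpoly ℚ s).map (algebraMap ℚ L)).Splits := by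
  refine ⟨IsIntegral.of_pow hn (by rw [hs]; exact isIntegral_algebraMap), ?_⟩
  have h1 : minpoly ℚ s ∣ X ^ n - C r := minpoly.dvd _ _ (by simp [hs])
  have h2 : ((X ^ n - C r : ℚ[X]).map (algebraMap ℚ L)).Splits := by
    rw [Polynomial.map_sub, Polynomial.map_pow, map_X, map_C]
    exact X_pow_sub_C_splits_of_isPrimitiveRoot hz hα
  refine Splits.of_dvd h2 ?_ (Polynomial.map_dvd _ h1)
  exact Polynomial.map_ne_zero (X_pow_sub_C_ne_zero hn r)

end ExK

open ExK in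
/-- row E2: the number field `K = ℚ(a, ω, ζ)` inside `PadicAlgCl 3` (intermediate field over `ℚ`,
`IntermediateField.nonempty_algHom_adjoin_of_splits` for the map to `ℚ_1249`). -/
theorem exists_K [Fact (Nat.Prime 3)] [Fact (Nat.Prime 1249)] (c : Cst (PadicAlgCl 3))
    (B : Subgroup (PadicAlgCl 3 ≃+* PadicAlgCl 3)) (h : Loc3 c B) :
    ∃ (K : Type) (_ : Field K) (_ : NumberField K) (c0 : Cst K) (ι : K →+* PadicAlgCl 3),
      Loc3 (c0.map ι) B ∧ (∀ b ∈ B, ∀ k, b (ι k) = ι k) ∧ Nonempty (K →+* ℚ_[1249]) := by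
  obtain ⟨d1, d2, d3, d4, d5, d6, d7, d8, d9⟩ := dec1
  haveI : Fact (Nat.Prime 13) := ⟨by norm_num⟩
  have hgood : ∀ s ∈ ({c.a, c.ω, c.ζ} : Set (PadicAlgCl 3)),
      IsIntegral ℚ s ∧ ((minpoly ℚ s).map (algebraMap ℚ ℚ_[1249])).Splits := by
    rintro s (rfl | rfl | rfl)
    · obtain ⟨α, h1, -⟩ := exists_root_pow (p := 1249) 2 d7 (-2) 523 d6 (by
        rw [d5, map_neg, map_ofNat])
      refine good (n := 2) (by norm_num) (r := -2) (by rw [c.ha]; simp)
        (IsPrimitiveRoot.neg_one 0 (by norm_num)) (α := (α : ℚ_[1249])) ?_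
      rw [← PadicInt.coe_pow, h1, PadicInt.coe_neg, map_neg, map_ofNat]
      rfl
    · obtain ⟨z, hz⟩ := exists_prim (p := 1249) (q := 3) d8 93 d1 d2
      refine good (n := 3) (by norm_num) (r := 1) ?_ hz (α := 1) (by simp)
      rw [map_one]
      linear_combination (c.ω - 1) * c.hω
    · obtain ⟨z, hz⟩ := exists_prim (p := 1249) (q := 13) d9 146 d3 d4
      refine good (n := 13) (by norm_num) (r := 1) ?_ hz (α := 1) (by simp)
      rw [map_one, c.hζ]
  set S : Set (PadicAlgCl 3) := {c.a, c.ω, c.ζ} with hS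
  haveI hfd : FiniteDimensional ℚ (IntermediateField.adjoin ℚ S) := by
    haveI : Finite S := by rw [hS]; exact Set.toFinite _
    exact IntermediateField.finiteDimensional_adjoin fun s hs => (hgood s hs).1
  have hma : c.a ∈ IntermediateField.adjoin ℚ S :=
    IntermediateField.subset_adjoin _ _ (by rw [hS]; simp)
  have hmω : c.ω ∈ IntermediateField.adjoin ℚ S :=
    IntermediateField.subset_adjoin _ _ (by rw [hS]; simp)
  have hmζ : c.ζ ∈ IntermediateField.adjoin ℚ S :=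
    IntermediateField.subset_adjoin _ _ (by rw [hS]; simp)
  refine ⟨IntermediateField.adjoin ℚ S, inferInstance,
    { to_charZero := inferInstance, to_finiteDimensional := hfd },
    { a := ⟨c.a, hma⟩
      ω := ⟨c.ω, hmω⟩
      ζ := ⟨c.ζ, hmζ⟩
      ha := Subtype.ext c.ha
      hω := Subtype.ext c.hω
      hζ := Subtype.ext c.hζ
      hζ1 := fun h => c.hζ1 (congrArg Subtype.val h) },
    (IntermediateField.adjoin ℚ S).val.toRingHom, ?_, ?_, ?_⟩
  · exact h
  · intro b hb k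
    obtain ⟨k, hk⟩ := k
    show b k = k
    induction hk using IntermediateField.adjoin_induction with
    | mem x hx =>
      rcases hx with rfl | rfl | rfl
      · exact h.fa b hb
      · exact h.fω b hb
      · exact h.fζ b hb
    | algebraMap x => simp
    | add x y _ _ hx hy => rw [map_add, hx, hy]
    | inv x _ hx => rw [map_inv₀, hx]
    | mul x y _ _ hx hy => rw [map_mul, hx, hy]
  · obtain ⟨f⟩ := IntermediateField.nonempty_algHom_adjoin_of_splits hgood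
    exact ⟨f.toRingHom⟩

end Pool.Agent.Arb
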